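import Mathlib

/-!
# The fixed intersection property and oriented hypergraphs: definitions
-/

namespace Pool.Agent.Lib.MP_2e96e9_co

/-- The family `X^(p)` of `p`-element subsets of `X`. -/
abbrev PSub (X : Type) (p : ℕ) : Type := {A : Finset X // A.card = p}

/-- `f : [n]^(p) → [n]^(p)` fixes an intersection: there are distinct `x`, `y` with
`|f x ∩ f y| = |x ∩ y|`. -/
def FixesIntersection {n p : ℕ} (f : PSub (Fin n) p → PSub (Fin n) p) : Prop :=
  ∃ x y, x ≠ y ∧ ((f x).1 ∩ (f y).1).card = (x.1 ∩ y.1).card

/-- `[n]^(p)` has the fixed intersection property: every nonconstant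
`f : [n]^(p) → [n]^(p)` fixes an intersection. -/
def FixedIntersectionProperty (n p : ℕ) : Prop :=
  ∀ f : PSub (Fin n) p → PSub (Fin n) p, (∃ x y, f x ≠ f y) → FixesIntersection f

/-- `D` is an orientation of the `r`-uniform hypergraph with edge set `G`: for every edge `e`,
`D e = (x_1, ..., x_r)` is a linear ordering of the vertices of `e`. -/
def IsOrientation {V : Type} [DecidableEq V] {r : ℕ} (G : Finset (Finset V))
    (D : Finset V → Fin r → V) : Prop :=
  ∀ e ∈ G, Function.Injective (D e) ∧ Finset.univ.image (D e) = e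

/-- The `I`-degree of `A`: the number of edges `e` with `{x_i : i ∈ I} = A`, where
`D e = (x_1, ..., x_r)`. -/
def iDegree {V : Type} [DecidableEq V] {r : ℕ} (G : Finset (Finset V))
    (D : Finset V → Fin r → V) (I : Finset (Fin r)) (A : Finset V) : ℕ :=
  (G.filter fun e => I.image (D e) = A).card

end Pool.Agent.Lib.MP_2e96e9_co
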