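import Mathlib
import Pool.Agent.Lib.MP_2e96e9_co.Defs

/-!
# Finite Ramsey theorem and the partite construction
-/

namespace Pool.Agent.Lib.MP_2e96e9_co

open Finset

/-- finite Ramsey theorem for `p`-sets, off-diagonal in the colours -/
theorem ramsey_aux (Q : Type) [Fintype Q] [DecidableEq Q] [Nonempty Q] (p : ℕ) :
    ∀ ρ : Q → ℕ, ∃ N : ℕ, ∀ (α : Type) [DecidableEq α] (X : Finset α), N ≤ X.card →
      ∀ f : Finset α → Q, ∃ q, ∃ Y ⊆ X, Y.card = ρ q ∧ ∀ A ⊆ Y, A.card = p → f A = q := by
  induction p with
  | zero =>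
    intro ρ
    refine ⟨∑ q, ρ q, ?_⟩
    intro α _ X hX f
    have h1 : ρ (f ∅) ≤ X.card := le_trans (Finset.single_le_sum (f := ρ) (fun _ _ => Nat.zero_le _)
      (Finset.mem_univ _)) hX
    obtain ⟨Y, hY, hYc⟩ := Finset.exists_subset_card_eq h1
    refine ⟨f ∅, Y, hY, hYc, ?_⟩
    intro A _ hA
    rw [Finset.card_eq_zero.1 hA]
  | succ p ih =>
    -- induction on the sum of the `ρ q`
    have key : ∀ n, ∀ ρ : Q → ℕ, ∑ q, ρ q = n → ∃ N : ℕ, ∀ (α : Type) [DecidableEq α]
        (X : Finset α), N ≤ X.card → ∀ f : Finset α → Q, ∃ q, ∃ Y ⊆ X, Y.card = ρ q ∧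
          ∀ A ⊆ Y, A.card = p + 1 → f A = q := by
      intro n
      induction n with
      | zero =>
        intro ρ hρ
        obtain ⟨q0⟩ := (inferInstance : Nonempty Q)
        refine ⟨0, fun α _ X _ f => ⟨q0, ∅, Finset.empty_subset _, ?_, ?_⟩⟩
        · have := Finset.sum_eq_zero_iff.1 hρ q0 (Finset.mem_univ _)
          simp [this]
        · intro A hA hA'
          rw [Finset.subset_empty.1 hA] at hA'
          simp at hA'
      | succ n ihn =>
        intro ρ hρ
        by_cases h0 : ∃ q, ρ q = 0
        · obtain ⟨q0, hq0⟩ := h0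
          refine ⟨0, fun α _ X _ f => ⟨q0, ∅, Finset.empty_subset _, by simp [hq0], ?_⟩⟩
          intro A hA hA'
          rw [Finset.subset_empty.1 hA] at hA'
          simp at hA'
        · push Not at h0
          have hsum : ∀ q, ∑ q', Function.update ρ q (ρ q - 1) q' = n := by
            intro q
            have h1 := Finset.sum_update_of_mem (Finset.mem_univ q) ρ (ρ q - 1)
            have h2 := Finset.add_sum_erase Finset.univ ρ (Finset.mem_univ q)
            rw [h1]
            have h3 : ∑ x ∈ univ \ {q}, ρ x = ∑ x ∈ univ.erase q, ρ x := by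
              rw [Finset.sdiff_singleton_eq_erase]
            have h4 := h0 q
            omega
          choose Nq hNq using fun q => ihn _ (hsum q)
          obtain ⟨M, hM⟩ := ih (fun _ => Finset.univ.sup Nq)
          refine ⟨M + 1, ?_⟩
          intro α _ X hX f
          have hXne : X.Nonempty := by
            rw [← Finset.card_pos]; omega
          obtain ⟨x, hx⟩ := hXne
          have hcard : (X.erase x).card = X.card - 1 := Finset.card_erase_of_mem hx
          obtain ⟨q, Y, hYX, hYc, hY⟩ := hM α (X.erase x) (by omega) (fun A => f (insert x A))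
          have hle : Nq q ≤ Y.card := by rw [hYc]; exact Finset.le_sup (Finset.mem_univ q)
          obtain ⟨q', Z, hZY, hZc, hZ⟩ := hNq q α Y hle f
          have hZX : Z ⊆ X := hZY.trans (hYX.trans (Finset.erase_subset _ _))
          by_cases hqq : q' = q
          · subst hqq
            have hxZ : x ∉ Z := fun h => by
              have := hYX (hZY h)
              simp at this
            refine ⟨q', insert x Z, ?_, ?_, ?_⟩
            · exact Finset.insert_subset hx hZX
            · rw [Finset.card_insert_of_notMem hxZ, hZc, Function.update_self]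
              have := h0 q'
              omega
            · intro A hA hAc
              by_cases hxA : x ∈ A
              · have h1 : A.erase x ⊆ Y := by
                  intro y hy
                  have h2 := hA (Finset.mem_of_mem_erase hy)
                  rcases Finset.mem_insert.1 h2 with h3 | h3
                  · exact absurd h3 (Finset.ne_of_mem_erase hy)
                  · exact hZY h3
                have h2 := hY (A.erase x) h1 (by rw [Finset.card_erase_of_mem hxA, hAc]; rfl)
                simpa [Finset.insert_erase hxA] using h2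
              · refine hZ A ?_ hAc
                intro y hy
                rcases Finset.mem_insert.1 (hA hy) with h3 | h3
                · exact absurd (h3 ▸ hy) hxA
                · exact h3
          · refine ⟨q', Z, hZX, ?_, hZ⟩
            rw [hZc, Function.update_of_ne hqq]
    intro ρ
    exact key _ ρ rfl

/-- finite Ramsey theorem in the form used below -/
theorem ramsey (Q : Type) [Fintype Q] [Nonempty Q] (p r : ℕ) :
    ∃ a : ℕ, ∀ f : Finset (Fin a) → Q, ∃ T : Fin r ↪ Fin a, ∃ q,
      ∀ I : Finset (Fin r), I.card = p → f (I.map T) = q := by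
  classical
  obtain ⟨N, hN⟩ := ramsey_aux Q p (fun _ => r)
  refine ⟨N, fun f => ?_⟩
  obtain ⟨q, Y, -, hYc, hY⟩ := hN (Fin N) Finset.univ (by simp) f
  refine ⟨(Y.orderEmbOfFin hYc).toEmbedding, q, fun I hI => hY _ ?_ (by rw [Finset.card_map, hI])⟩
  intro y hy
  obtain ⟨i, -, rfl⟩ := Finset.mem_map.1 hy
  exact Finset.orderEmbOfFin_mem Y hYc i

/-! ### Systems of coloured `p`-sets over `[a]` -/

/-- A system: a finite vertex set `X` projected to `Fin a`, with a relation `χ A i`
(the set `A` has colour `i`); coloured sets have `p` elements, are transversal for the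
projection, and have only one colour. -/
structure Sys (a p : ℕ) (C : Type) where
  X : Type
  fin : Finite X
  π : X → Fin a
  χ : Finset X → C → Prop
  card_eq : ∀ A i, χ A i → A.card = p
  inj : ∀ A i, χ A i → Set.InjOn π A
  func : ∀ A i j, χ A i → χ A j → i = j

/-- morphisms of systems -/
structure Hom {a p : ℕ} {C : Type} (P Q : Sys a p C) where
  f : P.X ↪ Q.X
  hπ : ∀ x, Q.π (f x) = P.π x
  hχ : ∀ A i, P.χ A i → Q.χ (A.map f) i

/-- composition of morphisms -/
def Hom.comp {a p : ℕ} {C : Type} {P Q R : Sys a p C} (ψ : Hom Q R) (φ : Hom P Q) : Hom P R where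
  f := φ.f.trans ψ.f
  hπ x := by simp [ψ.hπ, φ.hπ]
  hχ A i h := by
    rw [← Finset.map_map]
    exact ψ.hχ _ _ (φ.hχ _ _ h)

lemma Hom.image_π {a p : ℕ} {C : Type} {P Q : Sys a p C} (φ : Hom P Q) (A : Finset P.X) :
    (A.map φ.f).image Q.π = A.image P.π := by
  ext d
  simp only [Finset.mem_image, Finset.mem_map]
  constructor
  · rintro ⟨_, ⟨x, hx, rfl⟩, rfl⟩
    exact ⟨x, hx, (φ.hπ x).symm⟩
  · rintro ⟨x, hx, rfl⟩
    exact ⟨φ.f x, ⟨x, hx, rfl⟩, φ.hπ x⟩

open Classical in
/-- One step of the partite construction. -/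
theorem step {a p : ℕ} {C : Type} (P : Sys a p C) (K : Type) [Finite K] [Nonempty K]
    (D : Finset (Fin a)) (i : C) :
    ∃ P' : Sys a p C, ∀ c : Finset P'.X → K, ∃ φ : Hom P P', ∃ k, ∀ A, P.χ A i →
      A.image P.π = D → c (A.map φ.f) = k := by
  have := P.fin
  let Λ : Type := {A : Finset P.X // P.χ A i ∧ A.image P.π = D}
  by_cases hΛ : IsEmpty Λ
  · refine ⟨P, fun c => ⟨⟨Function.Embedding.refl _, fun _ => rfl, fun A j h => by simpa using h⟩,
      Classical.arbitrary K, ?_⟩⟩
    intro A hA hAD
    exact (hΛ.false ⟨A, hA, hAD⟩).elim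
  rw [not_isEmpty_iff] at hΛ
  obtain ⟨lam0⟩ := hΛ
  have hfinΛ : Finite Λ := Subtype.finite
  -- the vertex of `lam` in the part of `x`
  let v : Λ → P.X → P.X := fun lam x => if h : ∃ y ∈ lam.1, P.π y = P.π x then h.choose else x
  have hv : ∀ (lam : Λ) x, P.π x ∈ D → v lam x ∈ lam.1 ∧ P.π (v lam x) = P.π x := by
    intro lam x hx
    have h : ∃ y ∈ lam.1, P.π y = P.π x := by
      rw [← lam.2.2] at hx
      obtain ⟨y, hy, hyx⟩ := Finset.mem_image.1 hx
      exact ⟨y, hy, hyx⟩
    have e : v lam x = h.choose := by simp only [v]; rw [dif_pos h]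
    rw [e]
    exact h.choose_spec
  have huniq : ∀ (lam : Λ) y y', y ∈ lam.1 → y' ∈ lam.1 → P.π y = P.π y' → y = y' := by
    intro lam y y' hy hy' h
    exact P.inj _ _ lam.2.1 hy hy' h
  obtain ⟨ι, hι, hHJ⟩ := Combinatorics.Line.exists_mono_in_high_dimension Λ K
  obtain ⟨l0, -⟩ := hHJ (fun _ => Classical.arbitrary K)
  obtain ⟨t0, -⟩ := l0.proper
  let g : (ι → Option Λ) → P.X → ι → P.X := fun w x t => (w t).elim x (fun lam => v lam x)
  let emb : (ι → Option Λ) → P.X → (ι → P.X) ⊕ ((ι → Option Λ) × P.X) := fun w x =>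
    if P.π x ∈ D then Sum.inl (g w x) else Sum.inr (w, x)
  let π' : (ι → P.X) ⊕ ((ι → Option Λ) × P.X) → Fin a :=
    Sum.elim (fun u => P.π (u t0)) (fun u => P.π u.2)
  have hπ' : ∀ w x, π' (emb w x) = P.π x := by
    intro w x
    by_cases hx : P.π x ∈ D
    · simp only [emb, if_pos hx, π', Sum.elim_inl, g]
      rcases h : w t0 with _ | lam
      · simp
      · simp only [Option.elim_some]
        exact (hv lam x hx).2
    · simp only [emb, if_neg hx, π', Sum.elim_inr]
  have hinj : ∀ w, (∃ t, w t = none) → Function.Injective (emb w) := by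
    rintro w ⟨t, ht⟩ x y hxy
    have hπxy : P.π x = P.π y := by rw [← hπ' w x, ← hπ' w y, hxy]
    by_cases hx : P.π x ∈ D
    · have hy : P.π y ∈ D := hπxy ▸ hx
      simp only [emb, if_pos hx, if_pos hy, Sum.inl.injEq] at hxy
      have := congrFun hxy t
      simpa [g, ht] using this
    · have hy : P.π y ∉ D := hπxy ▸ hx
      simp only [emb, if_neg hx, if_neg hy, Sum.inr.injEq, Prod.mk.injEq] at hxy
      exact hxy.2
  let χ' : Finset ((ι → P.X) ⊕ ((ι → Option Λ) × P.X)) → C → Prop := fun A' j =>
    ∃ w, (∃ t, w t = none) ∧ ∃ A, P.χ A j ∧ A' = A.image (emb w)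
  -- evaluation
  let ev : ι → (ι → P.X) ⊕ ((ι → Option Λ) × P.X) → P.X := fun t =>
    Sum.elim (fun u => u t) (fun u => u.2)
  -- evaluating a coloured set inside the parts of `D`
  have hev : ∀ w A j, P.χ A j → (∀ x ∈ A, P.π x ∈ D) → ∀ t,
      (w t = none ∧ (A.image (emb w)).image (ev t) = A) ∨
      (∃ lam : Λ, (A.image (emb w)).image (ev t) = lam.1) := by
    intro w A j hA hAD t
    rcases h : w t with _ | lam
    · left
      refine ⟨rfl, ?_⟩
      rw [Finset.image_image]
      conv_rhs => rw [← Finset.image_id (s := A)]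
      apply Finset.image_congr
      intro x hx
      simp only [Function.comp, emb, if_pos (hAD x hx), ev, Sum.elim_inl, g, h, Option.elim_none,
        id]
    · right
      refine ⟨lam, ?_⟩
      rw [Finset.image_image]
      have himg : A.image P.π = D := by
        apply Finset.eq_of_subset_of_card_le
        · intro d hd
          obtain ⟨x, hx, rfl⟩ := Finset.mem_image.1 hd
          exact hAD x hx
        · rw [Finset.card_image_of_injOn (P.inj _ _ hA), P.card_eq _ _ hA, ← lam.2.2,
            Finset.card_image_of_injOn (P.inj _ _ lam.2.1), P.card_eq _ _ lam.2.1]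
      ext y
      simp only [Finset.mem_image, Function.comp]
      constructor
      · rintro ⟨x, hx, rfl⟩
        simp only [emb, if_pos (hAD x hx), ev, Sum.elim_inl, g, h, Option.elim_some]
        exact (hv lam x (hAD x hx)).1
      · intro hy
        have hyD : P.π y ∈ A.image P.π := by
          rw [himg, ← lam.2.2]
          exact Finset.mem_image_of_mem _ hy
        obtain ⟨x, hx, hxy⟩ := Finset.mem_image.1 hyD
        refine ⟨x, hx, ?_⟩
        simp only [emb, if_pos (hAD x hx), ev, Sum.elim_inl, g, h, Option.elim_some]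
        have h1 := hv lam x (hAD x hx)
        exact huniq lam _ _ h1.1 hy (h1.2.trans hxy)
  -- functionality, one sided version
  have hfunc1 : ∀ w w' A B j j', (∃ t, w t = none) → (∃ t, w' t = none) → P.χ A j → P.χ B j' →
      A.image (emb w) = B.image (emb w') → j ≠ i → j = j' := by
    intro w w' A B j j' hw hw' hA hB hAB hji
    by_cases hAD : ∀ x ∈ A, P.π x ∈ D
    · have hBD : ∀ x ∈ B, P.π x ∈ D := by
        intro y hy
        have h1 : emb w' y ∈ A.image (emb w) := by rw [hAB]; exact Finset.mem_image_of_mem _ hy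
        obtain ⟨x, hx, hxy⟩ := Finset.mem_image.1 h1
        rw [← hπ' w' y, ← hxy, hπ' w x]
        exact hAD x hx
      obtain ⟨t, ht⟩ := hw
      have e1 : (A.image (emb w)).image (ev t) = A := by
        rcases hev w A j hA hAD t with h | ⟨lam, h⟩
        · exact h.2
        · -- direct computation
          rw [Finset.image_image]
          conv_rhs => rw [← Finset.image_id (s := A)]
          apply Finset.image_congr
          intro x hx
          simp only [Function.comp, emb, if_pos (hAD x hx), ev, Sum.elim_inl, g, ht,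
            Option.elim_none, id]
      rw [hAB] at e1
      rcases hev w' B j' hB hBD t with h | ⟨lam, h⟩
      · rw [h.2] at e1
        subst e1
        exact P.func _ _ _ hA hB
      · rw [h] at e1
        exact absurd (P.func _ _ _ hA (e1 ▸ lam.2.1)) hji
    · push Not at hAD
      obtain ⟨x, hx, hxD⟩ := hAD
      have h1 : emb w x ∈ B.image (emb w') := by rw [← hAB]; exact Finset.mem_image_of_mem _ hx
      obtain ⟨y, hy, hxy⟩ := Finset.mem_image.1 h1
      have hyD : P.π y ∉ D := by rw [← hπ' w' y, hxy, hπ' w x]; exact hxD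
      simp only [emb, if_neg hxD, if_neg hyD, Sum.inr.injEq, Prod.mk.injEq] at hxy
      have hww : w' = w := hxy.1
      subst hww
      have := Finset.image_injective (hinj _ hw) hAB
      subst this
      exact P.func _ _ _ hA hB
  refine ⟨⟨(ι → P.X) ⊕ ((ι → Option Λ) × P.X), inferInstance, π', χ', ?_, ?_, ?_⟩, ?_⟩
  · rintro A' j ⟨w, hw, A, hA, rfl⟩
    rw [Finset.card_image_of_injective _ (hinj w hw), P.card_eq _ _ hA]
  · rintro A' j ⟨w, hw, A, hA, rfl⟩
    intro x hx y hy hxy
    simp only [Finset.coe_image, Set.mem_image, Finset.mem_coe] at hx hy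
    obtain ⟨x, hx, rfl⟩ := hx
    obtain ⟨y, hy, rfl⟩ := hy
    rw [hπ', hπ'] at hxy
    rw [P.inj _ _ hA hx hy hxy]
  · rintro A' j j' ⟨w, hw, A, hA, rfl⟩ ⟨w', hw', B, hB, hAB⟩
    by_cases hj : j = i
    · by_cases hj' : j' = i
      · rw [hj, hj']
      · exact (hfunc1 w' w B A j' j hw' hw hB hA hAB.symm hj').symm
    · exact hfunc1 w w' A B j j' hw hw' hA hB hAB hj
  · intro c
    simp only at c
    obtain ⟨l, k, hl⟩ := hHJ (fun u => c (lam0.1.image (fun x => Sum.inl (fun t => v (u t) x))))
    refine ⟨⟨⟨emb l.idxFun, hinj _ l.proper⟩, fun x => hπ' _ x, ?_⟩, k, ?_⟩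
    · intro A j hA
      refine ⟨l.idxFun, l.proper, A, hA, ?_⟩
      rw [Finset.map_eq_image]
      rfl
    · intro A hA hAD
      rw [← hl ⟨A, hA, hAD⟩]
      simp only
      congr 1
      rw [Finset.map_eq_image]
      simp only [Function.Embedding.coeFn_mk]
      have hADm : ∀ x ∈ A, P.π x ∈ D := by
        intro x hx
        rw [← hAD]
        exact Finset.mem_image_of_mem _ hx
      have h0D : ∀ x ∈ lam0.1, P.π x ∈ D := by
        intro x hx
        rw [← lam0.2.2]
        exact Finset.mem_image_of_mem _ hx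
      -- pointwise comparison
      have hcmp : ∀ x ∈ A, ∀ y ∈ lam0.1, P.π x = P.π y →
          emb l.idxFun x = Sum.inl (fun t => v (l (⟨A, hA, hAD⟩ : Λ) t) y) := by
        intro x hx y hy hxy
        simp only [emb, if_pos (hADm x hx), Sum.inl.injEq, g]
        funext t
        rcases h : l.idxFun t with _ | lam
        · rw [Combinatorics.Line.apply_none l _ t h]
          simp only [Option.elim_none]
          have h1 := hv ⟨A, hA, hAD⟩ y (h0D y hy)
          exact (huniq ⟨A, hA, hAD⟩ _ _ h1.1 hx (h1.2.trans hxy.symm)).symm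
        · rw [Combinatorics.Line.apply_some h]
          simp only [Option.elim_some]
          have h1 := hv lam y (h0D y hy)
          have h2 := hv lam x (hADm x hx)
          exact huniq lam _ _ h2.1 h1.1 (h2.2.trans (hxy.trans h1.2.symm))
      ext z
      simp only [Finset.mem_image]
      constructor
      · rintro ⟨x, hx, rfl⟩
        have h1 : P.π x ∈ lam0.1.image P.π := by rw [lam0.2.2]; exact hADm x hx
        obtain ⟨y, hy, hyx⟩ := Finset.mem_image.1 h1
        exact ⟨y, hy, (hcmp x hx y hy hyx.symm).symm⟩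
      · rintro ⟨y, hy, rfl⟩
        have h1 : P.π y ∈ A.image P.π := by rw [hAD]; exact h0D y hy
        obtain ⟨x, hx, hxy⟩ := Finset.mem_image.1 h1
        exact ⟨x, hx, hcmp x hx y hy hxy⟩

/-- Iterating the step over a finite set of pairs (type, colour). -/
theorem iterate {a p : ℕ} {C : Type} [DecidableEq C] (K : Type) [Finite K]
    [Nonempty K] (S : Finset (Finset (Fin a) × C)) :
    ∀ P : Sys a p C, ∃ P' : Sys a p C, ∀ c : Finset P'.X → K, ∃ φ : Hom P P',
      ∀ s ∈ S, ∃ k, ∀ A, P.χ A s.2 → A.image P.π = s.1 → c (A.map φ.f) = k := by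
  induction S using Finset.induction_on with
  | empty =>
    intro P
    refine ⟨P, fun c => ⟨⟨Function.Embedding.refl _, fun _ => rfl, fun A j h => by simpa using h⟩,
      ?_⟩⟩
    intro s hs
    simp at hs
  | insert s S hs ih =>
    intro P
    obtain ⟨P1, h1⟩ := ih P
    obtain ⟨P2, h2⟩ := step P1 K s.1 s.2
    refine ⟨P2, fun c => ?_⟩
    obtain ⟨φ2, k2, hk2⟩ := h2 c
    obtain ⟨φ1, hφ1⟩ := h1 (fun A => c (A.map φ2.f))
    refine ⟨φ2.comp φ1, ?_⟩
    intro s' hs'
    rcases Finset.mem_insert.1 hs' with rfl | hs'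
    · refine ⟨k2, fun A hA hAD => ?_⟩
      have := hk2 (A.map φ1.f) (φ1.hχ _ _ hA) (by rw [φ1.image_π, hAD])
      rw [Finset.map_map] at this
      exact this
    · obtain ⟨k, hk⟩ := hφ1 s' hs'
      refine ⟨k, fun A hA hAD => ?_⟩
      have := hk A hA hAD
      rw [Finset.map_map] at this
      exact this

end Pool.Agent.Lib.MP_2e96e9_co
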