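import Mathlib
import Pool.Agent.Lib.MP_2e96e9_co.Defs
import Pool.Agent.Lib.MP_2e96e9_co.Ramsey

/-!
# Hypergraphs witnessing the failure of the fixed intersection property
-/

namespace Pool.Agent.Lib.MP_2e96e9_co

open Finset

/-! ### Counting: maps fixing no intersection agree with every permutation somewhere -/

lemma exists_perm_map {r p : ℕ} (J J' : PSub (Fin r) p) :
    ∃ τ : Equiv.Perm (Fin r), J.1.map τ.toEmbedding = J'.1 := by
  classical
  have hc : Fintype.card {x // x ∈ J.1} = Fintype.card {x // x ∈ J'.1} := by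
    rw [Fintype.card_coe, Fintype.card_coe, J.2, J'.2]
  let e : {x // x ∈ J.1} ≃ {x // x ∈ J'.1} := Fintype.equivOfCardEq hc
  refine ⟨e.extendSubtype, ?_⟩
  apply Finset.eq_of_subset_of_card_le
  · intro y hy
    obtain ⟨x, hx, rfl⟩ := Finset.mem_map.1 hy
    simp only [Equiv.coe_toEmbedding]
    rw [Equiv.extendSubtype_apply_of_mem e x hx]
    exact (e ⟨x, hx⟩).2
  · rw [Finset.card_map, J.2, J'.2]

lemma card_maps {r p : ℕ} (I J J' : PSub (Fin r) p) :
    (univ.filter fun σ : Equiv.Perm (Fin r) => I.1.map σ.toEmbedding = J.1).card =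
      (univ.filter fun σ : Equiv.Perm (Fin r) => I.1.map σ.toEmbedding = J'.1).card := by
  classical
  obtain ⟨τ, hτ⟩ := exists_perm_map J J'
  refine Finset.card_bij' (fun σ _ => σ.trans τ) (fun σ _ => σ.trans τ.symm) ?_ ?_ ?_ ?_
  · intro σ hσ
    simp only [mem_filter, mem_univ, true_and] at hσ ⊢
    rw [← hτ, ← hσ, Finset.map_map]
    rfl
  · intro σ hσ
    simp only [mem_filter, mem_univ, true_and] at hσ ⊢
    have h1 : J'.1.map τ.symm.toEmbedding = J.1 := by
      rw [← hτ, Finset.map_map]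
      ext x
      simp
    rw [← h1, ← hσ, Finset.map_map]
    rfl
  · intro σ _
    ext x
    simp
  · intro σ _
    ext x
    simp

lemma card_maps_mul {r p : ℕ} (I J : PSub (Fin r) p) :
    Fintype.card (PSub (Fin r) p) *
      (univ.filter fun σ : Equiv.Perm (Fin r) => I.1.map σ.toEmbedding = J.1).card =
      Fintype.card (Equiv.Perm (Fin r)) := by
  classical
  have h1 : (univ : Finset (Equiv.Perm (Fin r))).card = ∑ J' : PSub (Fin r) p,
      (univ.filter fun σ : Equiv.Perm (Fin r) => I.1.map σ.toEmbedding = J'.1).card := by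
    have h2 := Finset.card_eq_sum_card_fiberwise (s := (univ : Finset (Equiv.Perm (Fin r))))
      (t := (univ : Finset (PSub (Fin r) p)))
      (f := fun σ => (⟨I.1.map σ.toEmbedding, by rw [Finset.card_map, I.2]⟩ : PSub (Fin r) p))
      (fun _ _ => Finset.mem_coe.2 (mem_univ _))
    rw [h2]
    apply Finset.sum_congr rfl
    intro J' _
    congr 1
    ext σ
    simp only [mem_filter, mem_univ, true_and]
    constructor
    · intro h
      exact congrArg Subtype.val h
    · intro h
      exact Subtype.ext h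
  rw [Finset.card_univ] at h1
  rw [h1, Finset.sum_congr rfl (fun J' _ => card_maps I J' J), Finset.sum_const, Finset.card_univ,
    smul_eq_mul]

lemma exists_agree {r p : ℕ} (f : PSub (Fin r) p → PSub (Fin r) p) (hf : ¬ FixesIntersection f)
    (hne : Nonempty (PSub (Fin r) p)) (σ : Equiv.Perm (Fin r)) :
    ∃ I : PSub (Fin r) p, I.1.map σ.toEmbedding = (f I).1 := by
  classical
  let S : PSub (Fin r) p → Finset (Equiv.Perm (Fin r)) := fun I =>
    univ.filter fun σ : Equiv.Perm (Fin r) => I.1.map σ.toEmbedding = (f I).1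
  have hdisj : ((univ : Finset (PSub (Fin r) p)) : Set (PSub (Fin r) p)).PairwiseDisjoint S := by
    intro I _ J _ hIJ
    rw [Function.onFun, Finset.disjoint_left]
    intro τ hI hJ
    simp only [S, mem_filter, mem_univ, true_and] at hI hJ
    apply hf
    refine ⟨I, J, hIJ, ?_⟩
    rw [← hI, ← hJ, ← Finset.map_inter, Finset.card_map]
  have hcard : (univ.biUnion S).card = Fintype.card (Equiv.Perm (Fin r)) := by
    rw [Finset.card_biUnion hdisj]
    have hpos : 0 < Fintype.card (PSub (Fin r) p) := Fintype.card_pos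
    apply Nat.eq_of_mul_eq_mul_left hpos
    rw [Finset.mul_sum, Finset.sum_congr rfl (fun I _ => card_maps_mul I (f I)), Finset.sum_const,
      Finset.card_univ, smul_eq_mul]
  have huniv : univ.biUnion S = univ := by
    rw [← Finset.card_eq_iff_eq_univ]
    exact hcard
  have hσ : σ ∈ univ.biUnion S := by rw [huniv]; exact mem_univ _
  obtain ⟨I, -, hI⟩ := Finset.mem_biUnion.1 hσ
  simp only [S, mem_filter, mem_univ, true_and] at hI
  exact ⟨I, hI⟩

/-! ### The initial system -/

/-- The initial system: one piece for every embedding `T : [r] → [a]` and every pattern `P`. -/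
lemma exists_initial (r a p : ℕ) (hp : 1 ≤ p) : ∃ (S : Sys a p (PSub (Fin r) p))
    (emb : (Fin r ↪ Fin a) → (PSub (Fin r) p → PSub (Fin r) p) → (Fin r ↪ S.X)),
    (∀ T P x, S.π (emb T P x) = T x) ∧ ∀ T P (I : PSub (Fin r) p), S.χ (I.1.map (emb T P)) (P I) := by
  let X : Type := (Fin r ↪ Fin a) × (PSub (Fin r) p → PSub (Fin r) p) × Fin r
  have hX : Finite X := inferInstance
  let π : X → Fin a := fun u => u.1 u.2.2
  have hinj : ∀ T P, Function.Injective (fun x => ((T, P, x) : X)) := by
    intro T P x y h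
    simpa using h
  let emb : (Fin r ↪ Fin a) → (PSub (Fin r) p → PSub (Fin r) p) → (Fin r ↪ X) :=
    fun T P => ⟨fun x => (T, P, x), hinj T P⟩
  have hemb : ∀ T P x, emb T P x = (T, P, x) := fun _ _ _ => rfl
  refine ⟨⟨X, hX, π, fun A i => ∃ T P, ∃ I : PSub (Fin r) p, A = I.1.map (emb T P) ∧ P I = i,
    ?_, ?_, ?_⟩, emb, fun _ _ _ => rfl, fun T P I => ⟨T, P, I, rfl, rfl⟩⟩
  · rintro A i ⟨T, P, I, rfl, -⟩
    rw [Finset.card_map, I.2]
  · rintro A i ⟨T, P, I, rfl, -⟩ x hx y hy hxy
    simp only [Finset.coe_map, Set.mem_image, Finset.mem_coe] at hx hy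
    obtain ⟨x, hx, rfl⟩ := hx
    obtain ⟨y, hy, rfl⟩ := hy
    have h1 : T x = T y := hxy
    rw [T.injective h1]
  · rintro A i j ⟨T, P, I, rfl, rfl⟩ ⟨T', P', I', h, rfl⟩
    have hne : I.1.Nonempty := by rw [← Finset.card_pos, I.2]; omega
    obtain ⟨x, hx⟩ := hne
    have h1 : emb T P x ∈ I'.1.map (emb T' P') := by
      rw [← h]; exact Finset.mem_map_of_mem _ hx
    obtain ⟨y, -, hy⟩ := Finset.mem_map.1 h1
    rw [hemb, hemb] at hy
    have h2 : T' = T := congrArg Prod.fst hy
    have h3 : P' = P := congrArg (fun u => u.2.1) hy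
    subst h2 h3
    have := Finset.map_injective _ h
    rw [Subtype.ext this]

open Classical in
/-- The main theorem. -/
theorem main (p r : ℕ) (hp : 1 ≤ p) (h : ¬ FixedIntersectionProperty r p) :
    ∃ (N : ℕ) (G : Finset (Finset (Fin N))), (∀ e ∈ G, e.card = r) ∧
      (∃ W : PSub (Fin N) p → Fin (r.choose p), Function.Surjective W ∧
        ∀ e ∈ G, ∀ i, ∃ A : PSub (Fin N) p, A.1 ⊆ e ∧ W A ≠ i) ∧
      ∀ D : Finset (Fin N) → Fin r → Fin N, IsOrientation G D →
        ∃ A : PSub (Fin N) p, ∀ I : PSub (Fin r) p, 0 < iDegree G D I.1 A.1 := by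
  rw [FixedIntersectionProperty] at h
  push Not at h
  obtain ⟨f, ⟨x0, y0, hxy0⟩, hf⟩ := h
  have hneK : Nonempty (PSub (Fin r) p) := ⟨x0⟩
  obtain ⟨a, ha⟩ := ramsey (PSub (Fin r) p → PSub (Fin r) p) p r
  obtain ⟨S, emb, hembπ, hembχ⟩ := exists_initial r a p hp
  obtain ⟨P', hP'⟩ := iterate (PSub (Fin r) p)
    (Finset.univ : Finset (Finset (Fin a) × PSub (Fin r) p)) S
  have := P'.fin
  let N := Nat.card P'.X
  let e : P'.X ≃ Fin N := Finite.equivFin P'.X
  let χF : Finset (Fin N) → PSub (Fin r) p → Prop := fun A i => P'.χ (A.map e.symm.toEmbedding) i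
  have hcK : Fintype.card (PSub (Fin r) p) = r.choose p := by
    rw [Fintype.card_finset_len, Fintype.card_fin]
  let eK : PSub (Fin r) p ≃ Fin (r.choose p) := Fintype.equivFinOfCardEq hcK
  let W : PSub (Fin N) p → Fin (r.choose p) := fun A =>
    eK (if h : ∃ i, χF A.1 i then h.choose else x0)
  have hW : ∀ (A : PSub (Fin N) p) i, χF A.1 i → W A = eK i := by
    intro A i hi
    have hex : ∃ i, χF A.1 i := ⟨i, hi⟩
    simp only [W]
    rw [dif_pos hex]
    congr 1
    exact P'.func _ _ _ hex.choose_spec hi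
  -- the embeddings of the pieces
  let m : Hom S P' → (Fin r ↪ Fin a) → (PSub (Fin r) p → PSub (Fin r) p) →
      (Fin r ↪ Fin N) := fun φ T P => ((emb T P).trans φ.f).trans e.toEmbedding
  have hm : ∀ φ T P (I : PSub (Fin r) p), χF (I.1.map (m φ T P)) (P I) := by
    intro φ T P I
    have h1 : P'.χ ((I.1.map (emb T P)).map φ.f) (P I) := φ.hχ _ _ (hembχ T P I)
    have h2 : (I.1.map (m φ T P)).map e.symm.toEmbedding = (I.1.map (emb T P)).map φ.f := by
      rw [Finset.map_map, Finset.map_map]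
      congr 1
      ext x
      simp [m]
    simp only [χF]
    rw [h2]
    exact h1
  let G : Finset (Finset (Fin N)) := Finset.univ.filter fun E =>
    ∃ φ T P, (∃ I J, P I ≠ P J) ∧ E = Finset.univ.map (m φ T P)
  have hmem : ∀ (I : PSub (Fin r) p) φ T P, (I.1.map (m φ T P)).card = p := by
    intro I φ T P
    rw [Finset.card_map, I.2]
  refine ⟨N, G, ?_, ⟨W, ?_, ?_⟩, ?_⟩
  · intro E hE
    simp only [G, mem_filter, mem_univ, true_and] at hE
    obtain ⟨φ, T, P, -, rfl⟩ := hE
    rw [Finset.card_map, Finset.card_univ, Fintype.card_fin]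
  · -- surjectivity
    intro k
    obtain ⟨φ, -⟩ := hP' (fun _ => x0)
    obtain ⟨T, -⟩ := ha (fun _ => id)
    refine ⟨⟨x0.1.map (m φ T (fun _ => eK.symm k)), hmem _ _ _ _⟩, ?_⟩
    rw [hW _ _ (hm φ T (fun _ => eK.symm k) x0)]
    simp
  · -- no edge in a single class
    intro E hE i
    simp only [G, mem_filter, mem_univ, true_and] at hE
    obtain ⟨φ, T, P, ⟨I, J, hIJ⟩, rfl⟩ := hE
    have hI := hW ⟨_, hmem I φ T P⟩ _ (hm φ T P I)
    have hJ := hW ⟨_, hmem J φ T P⟩ _ (hm φ T P J)
    by_cases hi : W ⟨_, hmem I φ T P⟩ = i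
    · refine ⟨⟨_, hmem J φ T P⟩, Finset.map_subset_map.2 (Finset.subset_univ _), ?_⟩
      rw [← hi, hI, hJ]
      intro h'
      exact hIJ (eK.injective h').symm
    · exact ⟨⟨_, hmem I φ T P⟩, Finset.map_subset_map.2 (Finset.subset_univ _), hi⟩
  · -- orientations
    intro D hD
    by_contra hcon
    push Not at hcon
    choose c0 hc0 using hcon
    let c : Finset P'.X → PSub (Fin r) p := fun B =>
      if h : (B.map e.toEmbedding).card = p then c0 ⟨B.map e.toEmbedding, h⟩ else x0
    obtain ⟨φ, hφ⟩ := hP' c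
    have hφ' : ∀ s : Finset (Fin a) × PSub (Fin r) p, ∃ k, ∀ A, S.χ A s.2 →
        A.image S.π = s.1 → c (A.map φ.f) = k := fun s => hφ s (mem_univ _)
    choose H hH using hφ'
    obtain ⟨T, h0, hT⟩ := ha (fun D' i => H (D', i))
    -- the colour of a piece
    have hcol : ∀ P (I : PSub (Fin r) p), c0 ⟨I.1.map (m φ T P), hmem I φ T P⟩ = h0 (P I) := by
      intro P I
      have h1 := hH (I.1.map T, P I) (I.1.map (emb T P)) (hembχ T P I) (by
        ext d
        simp only [Finset.mem_image, Finset.mem_map]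
        constructor
        · rintro ⟨_, ⟨x, hx, rfl⟩, rfl⟩
          exact ⟨x, hx, (hembπ T P x).symm⟩
        · rintro ⟨x, hx, rfl⟩
          exact ⟨_, ⟨x, hx, rfl⟩, hembπ T P x⟩)
      have h2 : H (I.1.map T, P I) = h0 (P I) := congrFun (hT I.1 I.2) (P I)
      rw [← h2, ← h1]
      have h3 : ((I.1.map (emb T P)).map φ.f).map e.toEmbedding = I.1.map (m φ T P) := by
        rw [Finset.map_map, Finset.map_map]
        rfl
      simp only [c]
      rw [dif_pos (by rw [h3]; exact hmem I φ T P)]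
      congr 1
      exact Subtype.ext h3.symm
    -- choice of the pattern
    have hpat : ∃ P : PSub (Fin r) p → PSub (Fin r) p, (∃ I J, P I ≠ P J) ∧
        ∀ σ : Equiv.Perm (Fin r), ∃ I : PSub (Fin r) p, I.1.map σ.toEmbedding = (h0 (P I)).1 := by
      by_cases hinj : Function.Injective h0
      · have hbij : Function.Bijective h0 := Finite.injective_iff_bijective.1 hinj
        let E := Equiv.ofBijective h0 hbij
        refine ⟨fun I => E.symm (f I), ⟨x0, y0, fun h => hxy0 (E.symm.injective h)⟩, ?_⟩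
        intro σ
        obtain ⟨I, hI⟩ := exists_agree f hf hneK σ
        refine ⟨I, ?_⟩
        rw [hI]
        congr 1
        exact (E.apply_symm_apply (f I)).symm
      · rw [Function.Injective] at hinj
        push Not at hinj
        obtain ⟨u, w, huw, hne⟩ := hinj
        have hxy : x0 ≠ y0 := fun h => hxy0 (by rw [h])
        refine ⟨fun I => if I = x0 then u else w, ⟨x0, y0, ?_⟩, ?_⟩
        · simp only [if_true, if_neg hxy.symm]
          exact hne
        · intro σ
          refine ⟨⟨(h0 u).1.map σ.symm.toEmbedding, by rw [Finset.card_map, (h0 u).2]⟩, ?_⟩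
          have h1 : h0 (if (⟨(h0 u).1.map σ.symm.toEmbedding, by
              rw [Finset.card_map, (h0 u).2]⟩ : PSub (Fin r) p) = x0 then u else w) = h0 u := by
            split_ifs
            · rfl
            · exact huw.symm
          rw [h1]
          rw [Finset.map_map]
          ext x
          simp
    obtain ⟨P, hPne, hPagree⟩ := hpat
    have hEG : Finset.univ.map (m φ T P) ∈ G := by
      simp only [G, mem_filter, mem_univ, true_and]
      exact ⟨φ, T, P, hPne, rfl⟩
    obtain ⟨hDinj, hDimg⟩ := hD _ hEG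
    have hσ : ∀ j : Fin r, ∃ k : Fin r, D (Finset.univ.map (m φ T P)) k = m φ T P j := by
      intro j
      have h1 : m φ T P j ∈ Finset.univ.image (D (Finset.univ.map (m φ T P))) := by
        rw [hDimg]
        exact Finset.mem_map_of_mem _ (mem_univ _)
      obtain ⟨k, -, hk⟩ := Finset.mem_image.1 h1
      exact ⟨k, hk⟩
    choose σ0 hσ0 using hσ
    have hσinj : Function.Injective σ0 := by
      intro j j' hjj
      apply (m φ T P).injective
      rw [← hσ0, ← hσ0, hjj]
    let σ : Equiv.Perm (Fin r) := Equiv.ofBijective σ0 (Finite.injective_iff_bijective.1 hσinj)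
    obtain ⟨I, hI⟩ := hPagree σ
    have hdeg := hc0 ⟨I.1.map (m φ T P), hmem I φ T P⟩
    rw [hcol P I] at hdeg
    have hin : Finset.univ.map (m φ T P) ∈ G.filter
        (fun E => (h0 (P I)).1.image (D E) = I.1.map (m φ T P)) := by
      rw [mem_filter]
      refine ⟨hEG, ?_⟩
      rw [← hI]
      ext z
      simp only [Finset.mem_image, Finset.mem_map]
      constructor
      · rintro ⟨_, ⟨j, hj, rfl⟩, rfl⟩
        exact ⟨j, hj, (hσ0 j).symm⟩
      · rintro ⟨j, hj, rfl⟩
        exact ⟨_, ⟨j, hj, rfl⟩, hσ0 j⟩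
    have hpos : 0 < iDegree G D (h0 (P I)).1 (I.1.map (m φ T P)) :=
      Finset.card_pos.2 ⟨_, hin⟩
    simp only at hdeg
    omega

end Pool.Agent.Lib.MP_2e96e9_co
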